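import Pool.Agent.X26.LF.Stm

set_option autoImplicit false

namespace Pool.Agent.X280.LF

open Finset Pool.Agent.X26.LF

open Classical in
theorem t_STG : S_STG := by
  intro hSM hBAD hCNT m p N _ u v A U hm hNP hFree hN hA
  have hp0 : 0 < p := (Fact.out : p.Prime).pos
  -- the good events
  have key : ∀ s : ZMod p, 4 * (univ.filter fun x : Fin N → ZMod p =>
      ¬ ∃ ι : Fin m ↪ Fin N, ∑ j, (u j : ZMod p) * x (ι j) = s ∧
        ∀ j, ¬ Bad v p A x (ι j)).card ≤ p ^ N := by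
    intro s
    have h1 := hSM m p N (fun j => (u j : ZMod p)) s hm hNP.1 hN
    have h2 := hBAD hCNT m p N u v A s hm hNP hFree
    have h3 : (univ.filter fun x : Fin N → ZMod p =>
      ¬ ∃ ι : Fin m ↪ Fin N, ∑ j, (u j : ZMod p) * x (ι j) = s ∧
        ∀ j, ¬ Bad v p A x (ι j)) ⊆ (univ.filter fun x : Fin N → ZMod p =>
      ¬ ∃ ι : Fin m ↪ Fin N, ∑ j, (u j : ZMod p) * x (ι j) = s) ∪
      (univ.filter fun x : Fin N → ZMod p => ∃ ι : Fin m ↪ Fin N,
        ∑ j, (u j : ZMod p) * x (ι j) = s ∧ ∃ j, Bad v p A x (ι j)) := by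
      intro x hx
      rw [Finset.mem_filter] at hx
      rw [Finset.mem_union, Finset.mem_filter, Finset.mem_filter]
      by_cases h : ∃ ι : Fin m ↪ Fin N, ∑ j, (u j : ZMod p) * x (ι j) = s
      · right
        obtain ⟨ι, hι⟩ := h
        refine ⟨Finset.mem_univ _, ι, hι, ?_⟩
        by_contra hno
        push Not at hno
        exact hx.2 ⟨ι, hι, hno⟩
      · left
        exact ⟨Finset.mem_univ _, h⟩
    have h4 := (Finset.card_le_card h3).trans (Finset.card_union_le _ _)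
    obtain ⟨α, hα⟩ : ∃ α : ℕ, α = (univ.filter fun x : Fin N → ZMod p =>
      ¬ ∃ ι : Fin m ↪ Fin N, ∑ j, (u j : ZMod p) * x (ι j) = s).card := ⟨_, rfl⟩
    obtain ⟨β, hβ⟩ : ∃ β : ℕ, β = (univ.filter fun x : Fin N → ZMod p => ∃ ι : Fin m ↪ Fin N,
        ∑ j, (u j : ZMod p) * x (ι j) = s ∧ ∃ j, Bad v p A x (ι j)).card := ⟨_, rfl⟩
    rw [← hα] at h1
    rw [← hβ] at h2
    rw [← hα, ← hβ] at h4
    have h5 : 8 * β ≤ p ^ N := by
      have h6 : p ^ 2 * (8 * β) ≤ p ^ 2 * p ^ N := by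
        calc p ^ 2 * (8 * β) = 8 * (p ^ 2 * β) := by ring
          _ ≤ 8 * (m ^ 2 * 4 ^ m * (A.card + N) ^ (2 * m - 1) * p ^ N) :=
              Nat.mul_le_mul_left _ h2
          _ = 8 * (m ^ 2 * 4 ^ m * (A.card + N) ^ (2 * m - 1)) * p ^ N := by ring
          _ ≤ p ^ 2 * p ^ N := Nat.mul_le_mul_right _ hA
      exact Nat.le_of_mul_le_mul_left h6 (by positivity)
    have h6 : 8 * α ≤ p ^ N := h1
    omega
  -- averaging
  have hsum : ∑ x : Fin N → ZMod p, 4 * (U.filter fun s =>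
      ¬ ∃ ι : Fin m ↪ Fin N, ∑ j, (u j : ZMod p) * x (ι j) = s ∧
        ∀ j, ¬ Bad v p A x (ι j)).card ≤ ∑ _x : Fin N → ZMod p, U.card := by
    rw [← Finset.mul_sum]
    have e : ∑ x : Fin N → ZMod p, (U.filter fun s =>
      ¬ ∃ ι : Fin m ↪ Fin N, ∑ j, (u j : ZMod p) * x (ι j) = s ∧
        ∀ j, ¬ Bad v p A x (ι j)).card = ∑ s ∈ U, (univ.filter fun x : Fin N → ZMod p =>
      ¬ ∃ ι : Fin m ↪ Fin N, ∑ j, (u j : ZMod p) * x (ι j) = s ∧
        ∀ j, ¬ Bad v p A x (ι j)).card := by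
      simp only [Finset.card_filter]
      exact Finset.sum_comm
    rw [e, Finset.mul_sum]
    calc _ ≤ ∑ _s ∈ U, p ^ N := Finset.sum_le_sum fun s _ => key s
      _ = ∑ _x : Fin N → ZMod p, U.card := by
          rw [Finset.sum_const, Finset.sum_const, Finset.card_univ, Fintype.card_fun, ZMod.card,
            Fintype.card_fin, smul_eq_mul, smul_eq_mul]
          ring
  obtain ⟨x, _, hx⟩ := Finset.exists_le_of_sum_le (Finset.univ_nonempty) hsum
  refine ⟨(univ.filter fun i : Fin N => ¬ Bad v p A x i).image x, ?_, ?_, ?_⟩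
  · refine Finset.card_image_le.trans ((Finset.card_le_univ _).trans ?_)
    rw [Fintype.card_fin]
  · intro K a ha hone
    -- the indices outside of `A`
    by_cases hL : ∃ k0 ∈ K, a k0 ∉ A
    · obtain ⟨k0, hk0, hk0A⟩ := hL
      have hpre : ∀ k ∈ K, a k ∉ A → ∃ i : Fin N, ¬ Bad v p A x i ∧ x i = a k := by
        intro k hk hkA
        have h1 := ha k hk
        rw [Finset.mem_union] at h1
        rcases h1 with h1 | h1
        · exact absurd h1 hkA
        · rw [Finset.mem_image] at h1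
          obtain ⟨i, hi, hix⟩ := h1
          exact ⟨i, (Finset.mem_filter.1 hi).2, hix⟩
      obtain ⟨i0, hi0, _⟩ := hpre k0 hk0 hk0A
      have hch : ∀ k : Fin m, ∃ i : Fin N, (k ∈ K → a k ∉ A → ¬ Bad v p A x i ∧ x i = a k) := by
        intro k
        by_cases h1 : k ∈ K ∧ a k ∉ A
        · obtain ⟨i, hi⟩ := hpre k h1.1 h1.2
          exact ⟨i, fun _ _ => hi⟩
        · exact ⟨i0, fun h2 h3 => absurd ⟨h2, h3⟩ h1⟩
      choose κ hκ using hch
      have hb : Bad v p A x (κ k0) := by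
        refine ⟨K.filter (fun k => a k ∈ A), K.filter (fun k => ¬ a k ∈ A), a, κ,
          Finset.disjoint_filter_filter_not K K _, fun k hk => (Finset.mem_filter.1 hk).2,
          ⟨k0, Finset.mem_filter.2 ⟨hk0, hk0A⟩, rfl⟩, ?_⟩
        rw [← hone, ← Finset.sum_filter_add_sum_filter_not K (fun k => a k ∈ A)
          (fun k => (v k : ZMod p) * a k)]
        congr 1
        refine Finset.sum_congr rfl fun k hk => ?_
        rw [Finset.mem_filter] at hk
        rw [(hκ k hk.1 hk.2).2]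
      exact (hκ k0 hk0 hk0A).1 hb
    · push Not at hL
      exact hFree K a hL hone
  · have h1 : (U.filter fun s => ¬ Cov u p ((univ.filter fun i : Fin N =>
        ¬ Bad v p A x i).image x) s) ⊆ (U.filter fun s =>
      ¬ ∃ ι : Fin m ↪ Fin N, ∑ j, (u j : ZMod p) * x (ι j) = s ∧
        ∀ j, ¬ Bad v p A x (ι j)) := by
      intro s hs
      rw [Finset.mem_filter] at hs ⊢
      refine ⟨hs.1, fun ⟨ι, hι, hg⟩ => hs.2 ⟨fun j => x (ι j), fun j => ?_, hι⟩⟩
      exact Finset.mem_image.2 ⟨ι j, Finset.mem_filter.2 ⟨Finset.mem_univ _, hg j⟩, rfl⟩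
    have h2 := Finset.card_le_card h1
    omega

end Pool.Agent.X280.LF
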